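import Pool.Agent.Y6.G.Stm3

set_option autoImplicit false

/-!
# Job EQ-SPQ: the speeds of the modes, for general admissible polynomials

Adapted from the file of helper692 (job EP-SPD).
-/

open Set Filter Topology

namespace Pool.Agent.Y929.EP.SPQ

open Pool.Agent.Y6.G
open Pool.Agent.Y6.F (DSol Mx κr rk code cd ln NM S_CODE S_IBP S_LIMR S_UC)
open Pool.Agent.Y6.M (qd mq Z3 C3 nsq len Md br Frame cK sgz)

theorem kx0 {n : ℕ} {j : Fin 3} (h : j.1 ≠ n % 3) : kx n j = 0 := if_neg h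

theorem kx1 {n : ℕ} {j : Fin 3} (h : j.1 = n % 3) : kx n j = (al n : ℤ) := if_pos h

theorem al_succ (n : ℕ) : ((al (n + 1) : ℕ) : ℤ) = (al n : ℤ) ^ 61 := by
  have : al (n + 1) = al n ^ 61 := rfl
  rw [this]
  exact Nat.cast_pow _ _

theorem kx_eq (n : ℕ) : kx n = fun l : Fin 3 => if l = ⟨n % 3, Nat.mod_lt _ (by norm_num)⟩ then
    (al n : ℤ) else 0 := by
  funext l
  by_cases h : l.1 = n % 3
  · rw [kx1 h, if_pos (Fin.ext h)]
  · rw [kx0 h, if_neg (fun e => h (congrArg Fin.val e))]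

theorem ky_eq (n : ℕ) : kx n + kx (n + 1) =
    fun l : Fin 3 => if l = ⟨n % 3, Nat.mod_lt _ (by norm_num)⟩ then (al n : ℤ) else
      if l = ⟨n % 3, Nat.mod_lt _ (by norm_num)⟩ + 1 then (al n : ℤ) ^ 61 else 0 := by
  have hj : ((⟨n % 3, Nat.mod_lt _ (by norm_num)⟩ : Fin 3) + 1).1 = (n + 1) % 3 := by
    rw [Fin.val_add]
    show (n % 3 + 1) % 3 = (n + 1) % 3
    omega
  funext l
  rw [Pi.add_apply]
  by_cases h : l.1 = n % 3
  · rw [kx1 h, if_pos (Fin.ext h), kx0 (by omega), add_zero]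
  · rw [kx0 h, if_neg (fun e => h (congrArg Fin.val e)), zero_add]
    by_cases h' : l.1 = (n + 1) % 3
    · rw [kx1 h', if_pos (Fin.ext (h'.trans hj.symm)), al_succ]
    · rw [kx0 h', if_neg (fun e => h' ((congrArg Fin.val e).trans hj))]

section
variable {A B : MvPolynomial (Fin 3) ℝ} (hAB : Adm2 A B)

include hAB

theorem ωQ_br (i : Md) : ωQ A B (br i) = -ωQ A B i := by
  obtain ⟨k, s⟩ := i
  cases s
  · exact hAB.oddB k.1
  · exact hAB.oddA k.1

theorem ωQ_X (n : ℕ) : ωQ A B (Xm n) = 0 := by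
  show ev A (kx n) = 0
  rw [kx_eq]
  exact hAB.axes _ _

theorem ωQ_Y (n : ℕ) : ωQ A B (Ym n) = 0 := by
  show ev B (kx n + kx (n + 1)) = 0
  rw [ky_eq]
  exact hAB.curves _ _

end

/-! ### Signs -/

theorem sgz_neg (k : Z3) : sgz (-k) = -sgz k := by
  unfold sgz
  simp only [Pi.neg_apply, Int.sign_neg, ne_eq, neg_eq_zero]
  split_ifs <;> rfl

theorem sgz_pm {k : Z3} (hk : k ≠ 0) : sgz k = 1 ∨ sgz k = -1 := by
  have hs : ∀ a : ℤ, a ≠ 0 → a.sign = 1 ∨ a.sign = -1 := by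
    intro a ha
    rcases lt_or_gt_of_ne ha with h | h
    · exact Or.inr (Int.sign_eq_neg_one_of_neg h)
    · exact Or.inl (Int.sign_eq_one_of_pos h)
  unfold sgz
  split_ifs with h0 h1
  · exact hs _ h0
  · exact hs _ h1
  · apply hs
    intro h2
    apply hk
    push Not at h0 h1
    funext j
    fin_cases j
    · exact h0
    · exact h1
    · exact h2

theorem t_SPQ : S_SPQ := by
  classical
  intro hLV hCODE A B hAB i
  obtain ⟨l1, l2, l3, l4, l5, l6, l7, l8, l9, l10, l11⟩ := hLV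
  obtain ⟨c1, c2, c3, c4, c5, c6⟩ := hCODE
  by_cases hi : σM i = 0
  · rw [hi, mul_zero]
    symm
    obtain ⟨n, hn⟩ := l3 i hi
    rcases hn with h | h | h | h
    · rw [h]
      exact ωQ_X hAB n
    · rw [h, ωQ_br hAB, ωQ_X hAB, neg_zero]
    · rw [h]
      exact ωQ_Y hAB n
    · rw [h, ωQ_br hAB, ωQ_Y hAB, neg_zero]
  · obtain ⟨hl, -⟩ := l4 i hi
    have hs : σM i = (sgz i.1.1 : ℝ) := by
      unfold σM at hi ⊢
      split_ifs at hi ⊢ with hh
      · exact absurd rfl hi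
      · rfl
    rw [hl, hs]
    have hbr : sgz (br i).1.1 = -sgz i.1.1 := sgz_neg i.1.1
    have hex : ∃ j : Md, cd j = cd i ∧ sgz j.1.1 = 1 := by
      rcases sgz_pm i.1.2 with h | h
      · exact ⟨i, rfl, h⟩
      · exact ⟨br i, c3 i, by rw [hbr, h]; rfl⟩
    have hSQ : SQ A B (cd i) = ωQ A B hex.choose := by
      unfold SQ
      rw [dif_pos hex]
    obtain ⟨hc1, hc2⟩ := hex.choose_spec
    rw [hSQ]
    rcases sgz_pm i.1.2 with h | h
    · rcases c2 i _ hc1.symm with hj | hj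
      · rw [hj, h, Int.cast_one, mul_one]
      · exfalso
        rw [hj, hbr, h] at hc2
        omega
    · rcases c2 i _ hc1.symm with hj | hj
      · exfalso
        rw [hj, h] at hc2
        omega
      · rw [hj, ωQ_br hAB, h]
        push_cast
        ring

end Pool.Agent.Y929.EP.SPQ
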